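import Pool.Agent.TH977.PW.Prog

set_option autoImplicit false

/-!
# Five consecutive odd integers containing four almost primes, and their neighbours

Let `R r` be the set of the odd `n` for which at least four of `n, n + 2, n + 4, n + 6, n + 8` have
only prime factors larger than `n ^ (1 / r)`; it contains all odd `n` for which four of the five are
prime. In every short interval `(X, X + Y]`, `Y ≥ X ^ θ`, there are at least `κ Y / log ^ 4 X`
integers `n` in `R r` such that these four numbers have at most `r` prime factors each. Let `A` be an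
ARBITRARY subset of `R r` (for example the set of the odd `n` for which four of the five numbers are
prime). In every short interval `(X, X + Y]`, `X ^ θ ≤ Y ≤ X / 2`, all but `ε Y / log ^ 4 X` of the
elements of `A` are regular points of `A`: the elements of `A` in ALL intervals of length between
`log ^ 4 X / c` and `Y` around them have the right order, and constant density up to `δ` at all but
`B (ε, δ)` dyadic scales.
-/

namespace Pool.Agent.Results.MP_fc51f7_nt.FourOfFive

open Finset Filter
open Pool.Agent.TH977.PW (N Irregular)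

/-- All prime factors of `x` are larger than `n ^ (1 / r)`. -/
def Rough (n r x : ℕ) : Prop := ∀ q : ℕ, q.Prime → q ∣ x → (n : ℝ) ^ (1 / (r : ℝ)) < (q : ℝ)

open Classical in
/-- `n` is odd and at least four of `n, n + 2, …, n + 8` have only prime factors larger than
`n ^ (1 / r)`. -/
def R (r : ℕ) : Set ℕ :=
  {n | Odd n ∧ 4 ≤ ((Finset.range 5).filter (fun i => Rough n r (n + 2 * i))).card}

open Classical in
/-- The same, and the four numbers have at most `r` prime factors (with multiplicity). -/
def Few (r : ℕ) : Set ℕ :=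
  {n | Odd n ∧ 4 ≤ ((Finset.range 5).filter (fun i => Rough n r (n + 2 * i) ∧
    (n + 2 * i).primeFactorsList.length ≤ r)).card}

lemma two_fail (P : ℕ → Prop) [DecidablePred P] (h : 4 ≤ ((Finset.range 5).filter P).card) (i j : ℕ)
    (hi : i < 5) (hj : j < 5) (hij : i ≠ j) : P i ∨ P j := by
  by_contra hcon
  rw [not_or] at hcon
  have h1 : (Finset.range 5).filter P ⊆ ((Finset.range 5).erase i).erase j := by
    intro x hx
    rw [mem_filter, mem_range] at hx
    rw [mem_erase, mem_erase, mem_range]
    exact ⟨fun e => hcon.2 (e ▸ hx.2), fun e => hcon.1 (e ▸ hx.2), hx.1⟩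
  have h2 := card_le_card h1
  have h3 : (((Finset.range 5).erase i).erase j).card = 3 := by
    rw [card_erase_of_mem (by rw [mem_erase, mem_range]; exact ⟨hij.symm, hj⟩),
      card_erase_of_mem (mem_range.2 hi), card_range]
  omega

/-- no local obstruction -/
lemma adm (p : ℕ) (hp : p.Prime) : ∃ m : ℕ, ∀ h ∈ ({0, 2, 6, 8} : Finset ℕ), ¬ p ∣ m + h := by
  rcases lt_or_ge p 30 with h30 | h30
  · refine ⟨101, fun h hh hd => ?_⟩
    simp only [mem_insert, mem_singleton] at hh
    have := (Nat.prime_dvd_prime_iff_eq hp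
      (by rcases hh with rfl | rfl | rfl | rfl <;> norm_num)).1 hd
    omega
  · refine ⟨5, fun h hh hd => ?_⟩
    simp only [mem_insert, mem_singleton] at hh
    have := Nat.le_of_dvd (by omega) hd
    omega

open Classical in
/-- **Four of five consecutive odd numbers.** -/
theorem result (θ : ℝ) (hθ : 0 < θ) (hθ1 : θ ≤ 1) :
    ∃ r₀ : ℕ, 2 ≤ r₀ ∧ ∀ r : ℕ, r₀ ≤ r →
      (∀ n : ℕ, Odd n → 4 ≤ ((Finset.range 5).filter (fun i => (n + 2 * i).Prime)).card →
        n ∈ R r) ∧
      (∃ κ : ℝ, 0 < κ ∧ ∀ᶠ X : ℕ in atTop, ∀ Y : ℕ, (X : ℝ) ^ θ ≤ Y → Y ≤ X →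
        κ * Y / Real.log X ^ 4 ≤ N (Few r) X (X + Y)) ∧
      ∀ ε : ℝ, 0 < ε → ∃ c : ℝ, 0 < c ∧ ∀ δ : ℝ, 0 < δ → ∃ B : ℕ,
        ∀ᶠ X : ℕ in atTop, ∀ Y : ℕ, (X : ℝ) ^ θ ≤ Y → 2 * Y ≤ X → ∀ A : Set ℕ, A ⊆ R r →
          (N (Irregular A 4 c δ B X Y) X (X + Y) : ℝ) ≤ ε * Y / Real.log X ^ 4 := by
  have key : ∀ r m : ℕ, 2 ≤ r → m ∈ R r → ∀ h ∈ ({0, 2, 6, 8} : Finset ℕ), ∀ p : ℕ, p.Prime →
      p ∣ m + h → (m : ℝ) ^ (1 / (r : ℝ)) < (p : ℝ) := by
    intro r m hr hm h hh p hp hd
    obtain ⟨hodd, hcard⟩ := hm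
    rcases lt_or_ge ((m : ℝ) ^ (1 / (r : ℝ))) 3 with h3 | h3
    · -- only the prime `2` could fail
      have hp2 : p ≠ 2 := by
        rintro rfl
        obtain ⟨t, ht⟩ := hodd
        simp only [mem_insert, mem_singleton] at hh
        omega
      have hp3 : 3 ≤ p := by
        have := hp.two_le
        omega
      have : (3 : ℝ) ≤ p := by exact_mod_cast hp3
      linarith
    · have hno : ∀ i : ℕ, 3 ∣ m + 2 * i → ¬ Rough m r (m + 2 * i) := by
        intro i hi hrough
        have := hrough 3 Nat.prime_three hi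
        push_cast at this
        linarith
      have hpair := two_fail (fun i => Rough m r (m + 2 * i)) hcard
      have h2 : ¬ Rough m r (m + 2 * 2) := by
        apply hno
        by_contra h4
        have h5 : 3 ∣ m + 2 * 0 ∨ 3 ∣ m + 2 * 1 := by omega
        rcases h5 with h5 | h5
        · rcases hpair 0 3 (by norm_num) (by norm_num) (by norm_num) with h6 | h6
          · exact hno 0 h5 h6
          · exact hno 3 (by omega) h6
        · rcases hpair 1 4 (by norm_num) (by norm_num) (by norm_num) with h6 | h6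
          · exact hno 1 h5 h6
          · exact hno 4 (by omega) h6
      simp only [mem_insert, mem_singleton] at hh
      rcases hh with rfl | rfl | rfl | rfl
      · exact (hpair 0 2 (by norm_num) (by norm_num) (by norm_num)).resolve_right h2 p hp hd
      · exact (hpair 1 2 (by norm_num) (by norm_num) (by norm_num)).resolve_right h2 p hp hd
      · exact (hpair 3 2 (by norm_num) (by norm_num) (by norm_num)).resolve_right h2 p hp hd
      · exact (hpair 4 2 (by norm_num) (by norm_num) (by norm_num)).resolve_right h2 p hp hd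
  obtain ⟨r0, hr0, h⟩ := Pool.Agent.TH977.PW.final_prog {0, 2, 6, 8} ⟨0, by simp⟩ 2 1 two_pos
    (fun h hh => by
      simp only [mem_insert, mem_singleton] at hh
      rcases hh with rfl | rfl | rfl | rfl <;> decide)
    adm (fun r => R r) (fun r => Few r) 4 (by decide) key
    (fun r _ => Eventually.of_forall (fun m hmod hro hfew => by
      refine ⟨Nat.odd_iff.2 (by omega), ?_⟩
      have hsub : ({0, 1, 3, 4} : Finset ℕ) ⊆ (Finset.range 5).filter (fun i =>
          Rough m r (m + 2 * i) ∧ (m + 2 * i).primeFactorsList.length ≤ r) := by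
        intro i hi
        simp only [mem_insert, mem_singleton] at hi
        rw [mem_filter, mem_range]
        rcases hi with rfl | rfl | rfl | rfl
        · exact ⟨by norm_num, fun q hq hd => hro 0 (by simp) q hq hd, hfew 0 (by simp)⟩
        · exact ⟨by norm_num, fun q hq hd => hro 2 (by simp) q hq hd, hfew 2 (by simp)⟩
        · exact ⟨by norm_num, fun q hq hd => hro 6 (by simp) q hq hd, hfew 6 (by simp)⟩
        · exact ⟨by norm_num, fun q hq hd => hro 8 (by simp) q hq hd, hfew 8 (by simp)⟩
      exact le_trans (by decide) (card_le_card hsub))) θ hθ hθ1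
  refine ⟨r0, hr0, fun r hr => ⟨?_, (h r hr).1, (h r hr).2⟩⟩
  intro n hn hc
  refine ⟨hn, hc.trans (card_le_card ?_)⟩
  intro i hi
  rw [mem_filter] at hi ⊢
  refine ⟨hi.1, fun q hq hd => ?_⟩
  rw [(Nat.prime_dvd_prime_iff_eq hq hi.2).1 hd]
  rcases Nat.lt_or_ge n 2 with h1 | h1
  · have h2 : n = 1 := by
      obtain ⟨t, ht⟩ := hn
      omega
    have h3 := hi.2.one_lt
    rw [h2, Nat.cast_one, Real.one_rpow]
    rw [h2] at h3
    exact_mod_cast h3
  · exact Pool.Agent.TH977.PW.rpow_lt_of_le r n (n + 2 * i) (hr0.trans hr) h1 (by omega)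

end Pool.Agent.Results.MP_fc51f7_nt.FourOfFive
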