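import Pool.Agent.TH464.PO.ShiftInst
import Pool.Agent.TH464.PO.ShiftJoint

set_option autoImplicit false

/-!
# Almost prime quadruples `m`, `m + a`, `m + b`, `m + c`: the joint law in several windows around
them, uniformly

Let `m` be good if `m`, `m + a`, `m + b` and `m + c` all have at most `r` prime factors, all
larger than `X ^ (1 / r)`. Let `V` be the product of `1 - ρ(p) / p` over the primes `p ≤ X ^ (1 /
r)`. Uniformly for all admissible `a < b < c ≤ X`, in ALL intervals `(Z, Z + Y]` inside `[0, 2 X]`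
of length `Y ≥ X ^ θ`: if `m` runs through the good integers in `(Z, Z + Y]`, the numbers of the
good integers in any `s` disjoint windows on both sides of `m`, at distance at most `x / V` from
`m` and not containing `m`, are asymptotically independent Poisson variables, whose means are `V`
times the lengths of the windows. In particular the gap before `m` and the gap after `m` are
asymptotically independent.
-/

namespace Pool.Agent.Results.MP_fc51f7_nt.IndependentNeighbours

open Finset Filter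

/-- `N` has at most `B` prime factors (with multiplicity), all of them larger than `z`. -/
def AlmostPrime (B : ℕ) (z : ℝ) (N : ℕ) : Prop :=
  N.primeFactorsList.length ≤ B ∧ ∀ p : ℕ, p.Prime → p ∣ N → z < (p : ℝ)

/-- `m` is good: `m`, `m + a`, `m + b` and `m + c` all have at most `r` prime factors, all larger than `X ^ (1 / r)`. -/
def Good (r X a b c m : ℕ) : Prop :=
  AlmostPrime r ((X : ℝ) ^ (1 / (r : ℝ))) m ∧ AlmostPrime r ((X : ℝ) ^ (1 / (r : ℝ))) (m + a) ∧
    AlmostPrime r ((X : ℝ) ^ (1 / (r : ℝ))) (m + b) ∧ AlmostPrime r ((X : ℝ) ^ (1 / (r : ℝ))) (m + c)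

/-- The quadruple `m`, `m + a`, `m + b`, `m + c` is admissible: it has no fixed prime divisor. -/
def Admissible (a b c : ℕ) : Prop :=
  ∀ p : ℕ, p.Prime → ∃ m : ℕ, ¬ p ∣ m ∧ ¬ p ∣ m + a ∧ ¬ p ∣ m + b ∧ ¬ p ∣ m + c

open Classical in
/-- The sieve density: the product of `1 - ρ(p) / p` over the primes `p ≤ X ^ (1 / r)`, where `ρ(p)` is
the number of the `t` mod `p` with `p ∣ t`, `p ∣ t + a`, `p ∣ t + b` or `p ∣ t + c`. -/
noncomputable def V (r X a b c : ℕ) : ℝ :=
  ∏ p ∈ (Finset.range (⌊(X : ℝ) ^ (1 / (r : ℝ))⌋₊ + 1)).filter Nat.Prime,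
    (1 - (((Finset.range p).filter (fun t : ℕ => p ∣ t ∨ p ∣ t + a ∨ p ∣ t + b ∨ p ∣ t + c)).card : ℝ) / p)

open Classical in
/-- The number of the good `m` in `(u, v]`. -/
noncomputable def N (r X a b c u v : ℕ) : ℕ :=
  ((Finset.Ioc u v).filter (fun m => Good r X a b c m)).card

/-- The probability of `E` for the Poisson distribution of mean `x`. -/
noncomputable def Poi (x : ℝ) (E : Finset ℕ) : ℝ :=
  ∑ j ∈ E, Real.exp (-x) * x ^ j / j.factorial

open Pool.Agent.TH464.PO

open Classical in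
/-- **The joint law in several windows around the good integers**, uniformly in the pattern and in all
intervals. The windows around `m` are the `(m - q + u_i, m - q + v_i]`; as `v_i < q` or `q ≤ u_i`, they do
not contain `m`. -/
theorem result (θ : ℝ) (hθ : 0 < θ) (s : ℕ) (x ε : ℝ) (hε : 0 < ε) :
    ∃ r0 : ℕ, ∀ r : ℕ, r0 ≤ r → ∀ᶠ X : ℕ in atTop, ∀ a b c : ℕ, 1 ≤ a → a < b → b < c → c ≤ X → Admissible a b c →
      ∀ Z Y : ℕ, (X : ℝ) ^ θ ≤ Y → Z + Y ≤ 2 * X →
      ∀ (q : ℕ) (u v : Fin s → ℕ), q * V r X a b c ≤ x → (∀ i, u i ≤ v i) →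
      (∀ i, v i * V r X a b c ≤ x) → (∀ i, v i < q ∨ q ≤ u i) →
      (∀ i j, i ≠ j → v i ≤ u j ∨ v j ≤ u i) → ∀ E : Fin s → Finset ℕ,
        |(((Finset.Ioc Z (Z + Y)).filter (fun m => Good r X a b c m ∧
            ∀ i, N r X a b c (m + u i - q) (m + v i - q) ∈ E i)).card : ℝ) -
          Y * V r X a b c * ∏ i, Poi (((v i : ℝ) - u i) * V r X a b c) (E i)| ≤
            ε * (Y * V r X a b c) := by
  obtain ⟨r0, h⟩ := sh_palm 4 (by norm_num) θ hθ s x ε hε
  refine ⟨r0, fun r hr => ?_⟩
  filter_upwards [h r hr] with X hX a b c ha hb hc hcX had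
  exact hX (P4 a b c) (P4_card a b c ha hb hc) (P4_le a b c X hb hc hcX) (P4_ad a b c had)
    (Good r X a b c) (V r X a b c) (P4_ap a b c r _) (P4_V a b c _)

end Pool.Agent.Results.MP_fc51f7_nt.IndependentNeighbours
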