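import Pool.Agent.TH882.Z1

/-!
Strings of consecutive primes all of which are first members of almost prime quadruplets
`p, p + 2, p + 6, p + 8`.
-/

set_option autoImplicit false

open Finset Filter Topology

namespace Pool.Agent.Results.MP_fc51f7_nt.StringsOfFirstMembers

/-- `n` is a product of at most `R` primes (counted with multiplicity), all at least `y`. -/
def AlmostPrime (R : ℕ) (y : ℝ) (n : ℕ) : Prop :=
  ArithmeticFunction.cardFactors n ≤ R ∧ ∀ l : ℕ, l.Prime → l ∣ n → y ≤ l

open Classical in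
/-- The `N ≤ x` such that the interval `(N, N + C]` contains at least `m` primes, and for every prime
`p` of the interval `p ≡ a` modulo `q` and `p + 2`, `p + 6`, `p + 8` are products of at most `R`
primes, all at least `y`. -/
noncomputable def strings (m q a C R : ℕ) (y : ℝ) (x : ℕ) : Finset ℕ :=
  (Icc 1 x).filter (fun N =>
    m ≤ ((Ioc N (N + C)).filter (fun p => p.Prime)).card ∧
    ∀ p ∈ Ioc N (N + C), p.Prime → p ≡ a [MOD q] ∧
      AlmostPrime R y (p + 2) ∧ AlmostPrime R y (p + 6) ∧ AlmostPrime R y (p + 8))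

/-- **Strings of first members of almost prime quadruplets.** For every `m` there are `δ > 0`, `R` and
`D` such that for all squarefree `q` and all `a` with `a (a + 2) (a + 6) (a + 8)` prime to `q` there
is `C` such that for all large `x` there are at least `x / (log x) ^ D` integers `N ≤ x` with the
following property: the interval `(N, N + C]` contains at least `m` primes, and for EVERY prime `p` of
the interval `p ≡ a` modulo `q` and the numbers `p + 2`, `p + 6`, `p + 8` are products of at most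
`R` primes, all at least `x ^ δ`. -/
theorem result (m : ℕ) : ∃ (δ : ℝ) (R D : ℕ), 0 < δ ∧ ∀ q a : ℕ, Squarefree q →
    q.Coprime (a * (a + 2) * (a + 6) * (a + 8)) → ∃ C x₀ : ℕ, ∀ x : ℕ, x₀ ≤ x →
      (x : ℝ) / Real.log x ^ D ≤ ((strings m q a C R ((x : ℝ) ^ δ) x).card : ℝ) := by
  classical
  obtain ⟨δ1, R, D1, hδ1, hrun⟩ := Pool.Agent.TH882.HZ.runsq {2, 6, 8} (m + 1) (by omega)
  refine ⟨δ1 / 2, R, D1 + 1, by positivity, ?_⟩
  intro q a hq hqa
  have hadm : Pool.Agent.TH882.HZ.AdmC {2, 6, 8} q (a : ℤ) := by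
    intro l hl
    by_cases hlq : l ∣ q
    · have key : ∀ e : ℕ, a + e ∣ a * (a + 2) * (a + 6) * (a + 8) → ¬ (l : ℤ) ∣ (a : ℤ) + e := by
        intro e he hd
        have h1 : l ∣ a + e := by exact_mod_cast hd
        have h2 := Nat.Coprime.eq_one_of_dvd (Nat.Coprime.coprime_dvd_left hlq hqa) (h1.trans he)
        exact hl.one_lt.ne' h2
      refine ⟨a, ?_, ?_, fun _ => by simp⟩
      · have := key 0 ⟨(a + 2) * (a + 6) * (a + 8), by ring⟩
        simpa using this
      · intro s hs
        simp only [mem_insert, mem_singleton] at hs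
        rcases hs with rfl | rfl | rfl
        · exact_mod_cast key 2 ⟨a * (a + 6) * (a + 8), by ring⟩
        · exact_mod_cast key 6 ⟨a * (a + 2) * (a + 8), by ring⟩
        · exact_mod_cast key 8 ⟨a * (a + 2) * (a + 6), by ring⟩
    · by_cases h37 : l = 3 ∨ l = 7
      · refine ⟨2, ?_, ?_, fun h => absurd h hlq⟩
        · rcases h37 with rfl | rfl <;> norm_num
        · intro s hs
          simp only [mem_insert, mem_singleton] at hs
          rcases h37 with rfl | rfl <;> rcases hs with rfl | rfl | rfl <;> norm_num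
      · refine ⟨1, ?_, ?_, fun h => absurd h hlq⟩
        · intro hd
          have := Int.le_of_dvd one_pos hd
          have := hl.two_le
          omega
        · intro s hs hd
          simp only [mem_insert, mem_singleton] at hs
          apply h37
          rcases hs with rfl | rfl | rfl
          · have h1 : l ∣ 3 := by exact_mod_cast hd
            exact Or.inl ((Nat.prime_dvd_prime_iff_eq hl Nat.prime_three).1 h1)
          · have h1 : l ∣ 7 := by exact_mod_cast hd
            exact Or.inr ((Nat.prime_dvd_prime_iff_eq hl (by norm_num)).1 h1)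
          · have h1 : l ∣ 3 ^ 2 := by
              have : l ∣ 9 := by exact_mod_cast hd
              simpa using this
            exact Or.inl ((Nat.prime_dvd_prime_iff_eq hl Nat.prime_three).1 (hl.dvd_of_dvd_pow h1))
  obtain ⟨C, X0, hX⟩ := hrun q (a : ℤ) hq hadm
  have hlogt : Tendsto (fun x : ℕ => Real.log (x : ℝ)) atTop atTop :=
    Real.tendsto_log_atTop.comp tendsto_natCast_atTop_atTop
  obtain ⟨X1, h1⟩ := eventually_atTop.1 (hlogt.eventually_ge_atTop 3)
  have hpt : Tendsto (fun x : ℕ => (x : ℝ) ^ (δ1 / 2)) atTop atTop :=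
    (tendsto_rpow_atTop (by positivity)).comp tendsto_natCast_atTop_atTop
  obtain ⟨X2, h2⟩ := eventually_atTop.1 (hpt.eventually_ge_atTop ((3 : ℝ) ^ δ1))
  refine ⟨C, 3 * (X0 + X1 + X2 + 3), ?_⟩
  intro x hx
  set X : ℕ := x / 2 with hXd
  have hX2 : 2 * X ≤ x := by omega
  have hX3 : x ≤ 3 * X := by omega
  have hx0 : X0 ≤ X := by omega
  have hXr : (3 : ℝ) ≤ X := by
    have : 3 ≤ X := by omega
    exact_mod_cast this
  have hxX : (x : ℝ) ≤ 3 * X := by exact_mod_cast hX3
  have hXx : 2 * (X : ℝ) ≤ x := by exact_mod_cast hX2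
  have hl := h1 x (by omega)
  have hp := h2 x (by omega)
  obtain ⟨A, hA, hrunA, hcard⟩ := hX X hx0
  have hx0' : (0 : ℝ) < x := by linarith
  have hty : (x : ℝ) ^ (δ1 / 2) ≤ (X : ℝ) ^ δ1 := by
    have e1 : (x : ℝ) ^ δ1 = (x : ℝ) ^ (δ1 / 2) * (x : ℝ) ^ (δ1 / 2) := by
      rw [← Real.rpow_add hx0']
      congr 1
      ring
    have e2 : (x : ℝ) ^ δ1 ≤ (3 * (X : ℝ)) ^ δ1 := Real.rpow_le_rpow hx0'.le hxX hδ1.le
    rw [Real.mul_rpow (by norm_num) (by linarith)] at e2
    have e3 : 0 < (3 : ℝ) ^ δ1 := by positivity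
    have e4 : 0 < (x : ℝ) ^ (δ1 / 2) := by positivity
    have e5 : (3 : ℝ) ^ δ1 * (x : ℝ) ^ (δ1 / 2) ≤ 3 ^ δ1 * (X : ℝ) ^ δ1 := by
      calc (3 : ℝ) ^ δ1 * (x : ℝ) ^ (δ1 / 2) ≤ (x : ℝ) ^ (δ1 / 2) * (x : ℝ) ^ (δ1 / 2) :=
            mul_le_mul_of_nonneg_right hp e4.le
        _ = (x : ℝ) ^ δ1 := e1.symm
        _ ≤ _ := e2
    exact le_of_mul_le_mul_left e5 e3
  have hmain : (A.card : ℝ) ≤ ((strings m q a C R ((x : ℝ) ^ (δ1 / 2)) x).card : ℝ) := by
    have hst : A ⊆ strings m q a C R ((x : ℝ) ^ (δ1 / 2)) x := by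
      intro n hn
      have hnI := hA hn
      rw [mem_Ico] at hnI
      obtain ⟨-, r2, r3⟩ := hrunA n hn
      unfold strings
      rw [mem_filter, mem_Icc]
      refine ⟨⟨by omega, by omega⟩, ?_, ?_⟩
      · refine (Nat.le_succ m).trans (r2.trans (card_le_card_of_injOn (fun w => n + w) ?_ ?_))
        · intro w hw
          rw [mem_coe, mem_filter, mem_Icc] at hw
          rw [mem_coe, mem_filter, mem_Ioc]
          have e5 : n < n + w ∧ n + w ≤ n + C := by omega
          exact ⟨e5, hw.2⟩
        · intro w _ w' _ he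
          simp only at he
          omega
      · intro p hp' hpp
        rw [mem_Ioc] at hp'
        have e1 : n + (p - n) = p := by omega
        obtain ⟨s1, s2⟩ := r3 (p - n) (by rw [mem_Icc]; omega) (by rw [e1]; exact hpp)
        rw [e1] at s1 s2
        have hAP : ∀ s : ℕ, ((s : ℕ) : ℤ) ∈ ({2, 6, 8} : Finset ℤ) →
            AlmostPrime R ((x : ℝ) ^ (δ1 / 2)) (p + s) := by
          intro s hs
          obtain ⟨-, t2, t3⟩ := s2 s hs
          have e2 : ((p : ℤ) + s).toNat = p + s := by omega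
          rw [e2] at t2 t3
          exact ⟨t2, fun l hl hd => hty.trans (t3 l hl hd)⟩
        refine ⟨?_, hAP 2 (by simp), hAP 6 (by simp), hAP 8 (by simp)⟩
        exact (Nat.modEq_iff_dvd.2 s1).symm
    exact_mod_cast card_le_card hst
  refine le_trans ?_ hmain
  refine le_trans ?_ hcard
  have hlog : Real.log (X : ℝ) ≤ Real.log x := Real.log_le_log (by linarith) (by linarith)
  have hlog0 : 0 < Real.log (X : ℝ) := Real.log_pos (by linarith)
  have e1 : 3 * Real.log (X : ℝ) ^ D1 ≤ Real.log x ^ (D1 + 1) := by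
    calc 3 * Real.log (X : ℝ) ^ D1 ≤ Real.log x * Real.log x ^ D1 := by
          apply mul_le_mul hl (pow_le_pow_left₀ hlog0.le hlog _) (by positivity) (by linarith)
      _ = Real.log x ^ (D1 + 1) := by ring
  calc (x : ℝ) / Real.log x ^ (D1 + 1) ≤ x / (3 * Real.log (X : ℝ) ^ D1) := by
        apply div_le_div_of_nonneg_left hx0'.le (by positivity) e1
    _ ≤ (3 * X) / (3 * Real.log (X : ℝ) ^ D1) := by
        apply div_le_div_of_nonneg_right hxX (by positivity)
    _ = X / Real.log (X : ℝ) ^ D1 := by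
        field_simp

end Pool.Agent.Results.MP_fc51f7_nt.StringsOfFirstMembers
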